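import Pool.Agent.H52.XR2.S2

/-!
# XR2, row HTN: a body whose horizontal X-rays are even has a half-turn symmetry
-/

set_option autoImplicit false

open MeasureTheory Set Filter Topology Metric
open scoped Real ENNReal RealInnerProductSpace

namespace Pool.XR2.HTN

open Pool.Agent.H45.XR

/-- A basis from an orthonormal pair. -/
lemma exists_basis {u n : E3} (hu : ‖u‖ = 1) (hn : ‖n‖ = 1) (h : ⟪u, n⟫ = 0) :
    ∃ b : OrthonormalBasis (Fin 3) ℝ E3, b 0 = u ∧ b 2 = n := by
  set v : Fin 3 → E3 := ![u, 0, n] with hv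
  have hor : Orthonormal ℝ (({0, 2} : Set (Fin 3)).domRestrict v) := by
    rw [orthonormal_iff_ite]
    rintro ⟨i, hi⟩ ⟨j, hj⟩
    simp only [mem_insert_iff, mem_singleton_iff] at hi hj
    have hij : ∀ (i j : Fin 3) (hi : i ∈ ({0, 2} : Set (Fin 3))) (hj : j ∈ ({0, 2} : Set (Fin 3))),
        ⟪({0, 2} : Set (Fin 3)).domRestrict v ⟨i, hi⟩, ({0, 2} : Set (Fin 3)).domRestrict v ⟨j, hj⟩⟫ =
        ⟪v i, v j⟫ := fun i j hi hj => rfl
    rw [hij]
    rcases hi with rfl | rfl <;> rcases hj with rfl | rfl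
    · have : v 0 = u := rfl
      rw [this, real_inner_self_eq_norm_sq, hu]; simp
    · have h1 : v 0 = u := rfl
      have h2 : v 2 = n := rfl
      rw [h1, h2, h]; simp
    · have h1 : v 0 = u := rfl
      have h2 : v 2 = n := rfl
      rw [h1, h2, real_inner_comm, h]; simp
    · have : v 2 = n := rfl
      rw [this, real_inner_self_eq_norm_sq, hn]; simp
  obtain ⟨b, hb⟩ := hor.exists_orthonormalBasis_extension_of_card_eq (by simp)
  exact ⟨b, by simpa [hv] using hb 0 (by simp), by simpa [hv] using hb 2 (by simp)⟩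

/-- A unit vector orthogonal to two given vectors. -/
lemma exists_perp (n ξ : E3) : ∃ u : E3, ‖u‖ = 1 ∧ ⟪n, u⟫ = 0 ∧ ⟪ξ, u⟫ = 0 := by
  set W : Submodule ℝ E3 := Submodule.span ℝ {n, ξ} with hW
  have h1 : Module.finrank ℝ W ≤ 2 := by
    refine (finrank_span_le_card ({n, ξ} : Set E3)).trans ?_
    simpa using Finset.card_le_two (a := n) (b := ξ)
  have h2 : Module.finrank ℝ W + Module.finrank ℝ Wᗮ = 3 := by
    rw [Submodule.finrank_add_finrank_orthogonal]; simp
  have h3 : 0 < Module.finrank ℝ Wᗮ := by omega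
  have h4 : Nontrivial Wᗮ := Module.finrank_pos_iff.mp h3
  obtain ⟨⟨x, hx⟩, hx0⟩ := exists_ne (0 : Wᗮ)
  have hx1 : x ≠ 0 := fun h => hx0 (Subtype.ext h)
  have hn : ‖x‖ ≠ 0 := by simpa using hx1
  have hxn : ⟪n, x⟫ = 0 := (Submodule.mem_orthogonal W x).1 hx n (Submodule.subset_span (by simp))
  have hxi : ⟪ξ, x⟫ = 0 := (Submodule.mem_orthogonal W x).1 hx ξ (Submodule.subset_span (by simp))
  refine ⟨‖x‖⁻¹ • x, ?_, ?_, ?_⟩
  · rw [norm_smul, norm_inv, norm_norm, inv_mul_cancel₀ hn]
  · rw [inner_smul_right, hxn, mul_zero]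
  · rw [inner_smul_right, hxi, mul_zero]

/-- Coordinates. -/
noncomputable def Q (b : OrthonormalBasis (Fin 3) ℝ E3) : E3 ≃ᵐ ℝ × (Fin 2 → ℝ) :=
  b.measurableEquiv.trans ((MeasurableEquiv.toLp 2 (Fin 3 → ℝ)).symm.trans
    (MeasurableEquiv.piFinSuccAbove (fun _ => ℝ) 0))

lemma Q_mp (b : OrthonormalBasis (Fin 3) ℝ E3) :
    MeasurePreserving (Q b) volume (volume.prod volume) :=
  (b.measurePreserving_measurableEquiv).trans
    ((EuclideanSpace.volume_preserving_symm_measurableEquiv_toLp (Fin 3)).trans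
      (volume_preserving_piFinSuccAbove (fun _ => ℝ) 0))

lemma Q_apply (b : OrthonormalBasis (Fin 3) ℝ E3) (x : E3) :
    Q b x = (⟪b 0, x⟫, fun j => ⟪b j.succ, x⟫) := by
  simp only [Q, MeasurableEquiv.trans_apply, OrthonormalBasis.measurableEquiv]
  ext j
  · simp [MeasurableEquiv.piFinSuccAbove, b.repr_apply_apply]
  · simp [MeasurableEquiv.piFinSuccAbove, Fin.tail, b.repr_apply_apply]

lemma Q_symm (b : OrthonormalBasis (Fin 3) ℝ E3) (s : ℝ) (y : Fin 2 → ℝ) :
    (Q b).symm (s, y) = y 0 • b 1 + y 1 • b 2 + s • b 0 := by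
  rw [MeasurableEquiv.symm_apply_eq, Q_apply]
  have h0 : ∀ i j : Fin 3, ⟪b i, b j⟫ = if i = j then (1 : ℝ) else 0 :=
    orthonormal_iff_ite.mp b.orthonormal
  ext j
  · simp [inner_add_right, inner_smul_right, h0]
  · fin_cases j <;> simp [inner_add_right, inner_smul_right, h0]

/-- The reflection of the plane. -/
def rf (y : Fin 2 → ℝ) : Fin 2 → ℝ := fun i => if i = 0 then - y i else y i

lemma rf_mp : MeasurePreserving rf volume volume := by
  have := volume_preserving_pi (α' := fun _ : Fin 2 => ℝ) (β' := fun _ : Fin 2 => ℝ)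
    (f := fun i : Fin 2 => fun t : ℝ => if i = 0 then - t else t) (fun i => by
      by_cases hi : i = 0
      · simpa [hi] using Measure.measurePreserving_neg (volume : Measure ℝ)
      · simp only [hi, if_false]
        exact MeasurePreserving.id (volume : Measure ℝ))
  exact this

lemma vol_slice (b : OrthonormalBasis (Fin 3) ℝ E3) {K : Set E3} (hK : MeasurableSet K)
    {A : Set (Fin 2 → ℝ)} (hA : MeasurableSet A) :
    volume (K ∩ (fun x => (Q b x).2) ⁻¹' A) =
      ∫⁻ y, A.indicator (fun y => xl K (b 0) (y 0 • b 1 + y 1 • b 2)) y := by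
  have hm : MeasurableSet (K ∩ (fun x => (Q b x).2) ⁻¹' A) :=
    hK.inter ((measurable_snd.comp (Q b).measurable) hA)
  rw [← ((Q_mp b).symm).measure_preimage hm.nullMeasurableSet, Measure.prod_apply_symm
    ((Q b).symm.measurable hm)]
  refine lintegral_congr fun y => ?_
  by_cases hy : y ∈ A
  · rw [indicator_of_mem hy]
    simp only [xl]
    congr 1
    ext s
    have h1 : ((Q b) ((Q b).symm (s, y))).2 = y := by rw [MeasurableEquiv.apply_symm_apply]
    rw [Q_symm] at h1
    simp only [mem_preimage, mem_inter_iff, Q_symm, h1, hy, and_true, mem_ofPred_eq]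
  · rw [indicator_of_notMem hy]
    convert measure_empty (μ := (volume : Measure ℝ))
    ext s
    simp [hy]

lemma vol_rf (b : OrthonormalBasis (Fin 3) ℝ E3) {K : Set E3} (hK : MeasurableSet K)
    (hS : SymR K (b 0) (b 1)) {A : Set (Fin 2 → ℝ)} (hA : MeasurableSet A) :
    volume (K ∩ (fun x => (Q b x).2) ⁻¹' (rf ⁻¹' A)) = volume (K ∩ (fun x => (Q b x).2) ⁻¹' A) := by
  rw [vol_slice b hK hA, vol_slice b hK (rf_mp.measurable hA)]
  have h1 : ∀ y : Fin 2 → ℝ, (rf ⁻¹' A).indicator
      (fun y => xl K (b 0) (y 0 • b 1 + y 1 • b 2)) y =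
      A.indicator (fun y => xl K (b 0) (y 0 • b 1 + y 1 • b 2)) (rf y) := by
    intro y
    have h2 : xl K (b 0) (y 0 • b 1 + y 1 • b 2) =
        xl K (b 0) (rf y 0 • b 1 + rf y 1 • b 2) := by
      rw [← hS (y 0 • b 1 + y 1 • b 2)]
      congr 1
      have h0 : ∀ i j : Fin 3, ⟪b i, b j⟫ = if i = j then (1 : ℝ) else 0 :=
        orthonormal_iff_ite.mp b.orthonormal
      simp only [inner_add_right, inner_smul_right, h0, rf]
      simp
      module
    by_cases hy : rf y ∈ A
    · rw [indicator_of_mem hy, indicator_of_mem (by exact hy), h2]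
    · rw [indicator_of_notMem hy, indicator_of_notMem (by exact hy)]
  rw [lintegral_congr h1]
  have hinv : Function.Involutive rf := by
    intro y
    ext i
    by_cases hi : i = 0 <;> simp [rf, hi]
  exact rf_mp.lintegral_comp_emb
    (MeasurableEquiv.ofInvolutive rf hinv rf_mp.measurable).measurableEmbedding _

/-- The half-turn. -/
noncomputable def T (n : E3) : E3 ≃ₗᵢ[ℝ] E3 := (ℝ ∙ n).reflection

lemma T_apply {n : E3} (hn : ‖n‖ = 1) (x : E3) : T n x = (2 * ⟪n, x⟫) • n - x := by
  rw [T, Submodule.reflection_singleton_apply, hn]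
  simp only [one_pow, div_one, RCLike.ofReal_real_eq_id, id]
  rw [← Nat.cast_smul_eq_nsmul ℝ, smul_smul]
  norm_num

lemma charFun_eq (b : OrthonormalBasis (Fin 3) ℝ E3) {K : Set E3} (hK : MeasurableSet K)
    (hS : SymR K (b 0) (b 1)) {ξ : E3} (hξ : ⟪b 0, ξ⟫ = 0) (hn : ‖b 2‖ = 1) :
    charFun (volume.restrict K) ξ = charFun ((volume.restrict K).map (T (b 2))) ξ := by
  set μ : Measure E3 := volume.restrict K with hμ
  have hQ : Measurable (fun x => (Q b x).2) := measurable_snd.comp (Q b).measurable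
  have hQ2 : Measurable (fun x => rf (Q b x).2) := rf_mp.measurable.comp hQ
  have hlaw : μ.map (fun x => (Q b x).2) = μ.map (fun x => rf (Q b x).2) := by
    ext A hA
    rw [Measure.map_apply hQ hA, Measure.map_apply hQ2 hA, hμ,
      Measure.restrict_apply (hQ hA), Measure.restrict_apply (hQ2 hA),
      inter_comm, ← vol_rf b hK hS hA, inter_comm]
    rfl
  set L : (Fin 2 → ℝ) → ℝ := fun y => ⟪b 1, ξ⟫ * y 0 + ⟪b 2, ξ⟫ * y 1 with hL
  have hLm : Measurable L := by
    rw [hL]; fun_prop
  have hin : ∀ x : E3, ⟪x, ξ⟫ = L (Q b x).2 := by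
    intro x
    have h1 := b.sum_repr' x
    rw [Fin.sum_univ_three] at h1
    rw [Q_apply, hL]
    conv_lhs => rw [← h1]
    simp only [inner_add_left, inner_smul_left, hξ]
    simp
    ring
  have hin2 : ∀ x : E3, ⟪T (b 2) x, ξ⟫ = L (rf (Q b x).2) := by
    intro x
    rw [T_apply hn, inner_sub_left, inner_smul_left, hin x]
    simp only [Q_apply, hL, rf]
    simp
    ring
  have hE : ∀ F : E3 → (Fin 2 → ℝ), Measurable F →
      ∫ x, Complex.exp (L (F x) * Complex.I) ∂μ =
        ∫ y, Complex.exp (L y * Complex.I) ∂(μ.map F) := by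
    intro F hF
    rw [integral_map hF.aemeasurable]
    have : Measurable (fun y : Fin 2 → ℝ => Complex.exp (L y * Complex.I)) := by fun_prop
    exact this.aestronglyMeasurable
  rw [charFun_apply, charFun_apply, integral_map (T (b 2)).continuous.measurable.aemeasurable
    (by
      have : Measurable (fun x : E3 => Complex.exp (⟪x, ξ⟫ * Complex.I)) := by fun_prop
      exact this.aestronglyMeasurable)]
  simp only [hin2]
  simp only [hin]
  rw [hE _ hQ, hE _ hQ2, hlaw]

end Pool.XR2.HTN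

namespace Pool.XR2

open Pool.Agent.H45.XR Pool.XR2.HTN

theorem t_htn : HTNStmt := by
  intro K n hK hn hS
  obtain ⟨hc, hk, hi⟩ := hK
  have hKm : MeasurableSet K := hk.isClosed.measurableSet
  have hfin : IsFiniteMeasure (volume.restrict K) := ⟨by
    rw [Measure.restrict_apply_univ]; exact hk.measure_lt_top⟩
  have hTm : Measurable (T n) := (T n).continuous.measurable
  have hmap : volume.restrict K = (volume.restrict K).map (T n) := by
    have : IsFiniteMeasure ((volume.restrict K).map (T n)) :=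
      Measure.isFiniteMeasure_map _ _
    refine Measure.ext_of_charFun (funext fun ξ => ?_)
    obtain ⟨u, hu, hnu, hξu⟩ := exists_perp n ξ
    obtain ⟨b, hb0, hb2⟩ := exists_basis hu hn (by rw [real_inner_comm]; exact hnu)
    have h0 : ∀ i j : Fin 3, ⟪b i, b j⟫ = if i = j then (1 : ℝ) else 0 :=
      orthonormal_iff_ite.mp b.orthonormal
    have h1 : SymR K (b 0) (b 1) := by
      refine hS _ _ ⟨b.orthonormal.1 0, b.orthonormal.1 1, by simp [h0]⟩ ?_ ?_
      · rw [← hb2]; simp [h0]
      · rw [← hb2]; simp [h0]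
    have h2 := charFun_eq b hKm h1 (ξ := ξ) (by rw [hb0, real_inner_comm]; exact hξu)
      (b.orthonormal.1 2)
    rw [hb2] at h2
    exact h2
  have hz : volume ((T n) ⁻¹' Kᶜ ∩ K) = 0 := by
    have h1 : (volume.restrict K) Kᶜ = 0 := by
      rw [Measure.restrict_apply hKm.compl]; simp
    rw [hmap, Measure.map_apply hTm hKm.compl, Measure.restrict_apply (hTm hKm.compl)] at h1
    exact h1
  have hopen : IsOpen ((T n) ⁻¹' Kᶜ ∩ interior K) :=
    (hk.isClosed.isOpen_compl.preimage (T n).continuous).inter isOpen_interior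
  have hemp : (T n) ⁻¹' Kᶜ ∩ interior K = ∅ := by
    rw [← hopen.measure_eq_zero_iff volume]
    exact measure_mono_null (inter_subset_inter_right _ interior_subset) hz
  have hsub : interior K ⊆ (T n) ⁻¹' K := by
    intro x hx
    by_contra h
    have : x ∈ (T n) ⁻¹' Kᶜ ∩ interior K := ⟨h, hx⟩
    rw [hemp] at this
    exact this
  intro x hx
  have hcl : x ∈ closure (interior K) := by
    rw [hc.closure_interior_eq_closure_of_nonempty_interior hi]
    exact subset_closure hx
  have := closure_minimal hsub (hk.isClosed.preimage (T n).continuous) hcl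
  rw [← T_apply hn]
  exact this

end Pool.XR2
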